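import Pool.Agent.helper97.GD.SpecB

set_option autoImplicit false

open Filter

namespace Pool.Agent.GD

theorem BLT_npos {U : Ultrafilter ℕ} {N : ℕ → ℕ} (hN : Tendsto N (U : Filter ℕ) atTop) :
    ∀ᶠ k in (U : Filter ℕ), 0 < N k := hN.eventually_gt_atTop 0

theorem BLT_smcongr {U : Ultrafilter ℕ} {N : ℕ → ℕ} {f g : ℕ → ℤ} (hf : Sm U N f)
    (h : ∀ᶠ k in (U : Filter ℕ), f k = g k) : Sm U N g := by
  intro j
  filter_upwards [hf j, h] with k h1 h2
  rw [← h2]; exact h1

theorem BLT_total {U : Ultrafilter ℕ} (p : ℕ → Prop) :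
    (∀ᶠ k in (U : Filter ℕ), p k) ∨ (∀ᶠ k in (U : Filter ℕ), ¬ p k) := by
  by_cases h : ∀ᶠ k in (U : Filter ℕ), p k
  · exact Or.inl h
  · exact Or.inr (Ultrafilter.eventually_not.mpr h)

theorem BLT_max {U : Ultrafilter ℕ} : ∀ l : List ((ℕ → ℤ) × (ℕ → ℤ)), l ≠ [] →
    ∃ x ∈ l, ∀ y ∈ l, ∀ᶠ k in (U : Filter ℕ), y.2 k ≤ x.2 k := by
  intro l
  induction l with
  | nil => intro h; exact absurd rfl h
  | cons a l ih =>
    intro _
    by_cases hl : l = []
    · subst hl
      refine ⟨a, by simp, ?_⟩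
      intro y hy
      have hya : y = a := by simpa using hy
      subst hya
      exact Eventually.of_forall fun k => le_rfl
    · obtain ⟨x, hx, hx2⟩ := ih hl
      rcases BLT_total (U := U) (fun k => a.2 k ≤ x.2 k) with h | h
      · refine ⟨x, List.mem_cons_of_mem _ hx, ?_⟩
        intro y hy
        rcases List.mem_cons.mp hy with rfl | hy
        · exact h
        · exact hx2 y hy
      · refine ⟨a, by simp, ?_⟩
        intro y hy
        rcases List.mem_cons.mp hy with rfl | hy
        · exact Eventually.of_forall fun k => le_rfl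
        · filter_upwards [h, hx2 y hy] with k h1 h2
          omega

theorem BLT_min {U : Ultrafilter ℕ} : ∀ l : List ((ℕ → ℤ) × (ℕ → ℤ)), l ≠ [] →
    ∃ x ∈ l, ∀ y ∈ l, ∀ᶠ k in (U : Filter ℕ), x.2 k ≤ y.2 k := by
  intro l
  induction l with
  | nil => intro h; exact absurd rfl h
  | cons a l ih =>
    intro _
    by_cases hl : l = []
    · subst hl
      refine ⟨a, by simp, ?_⟩
      intro y hy
      have hya : y = a := by simpa using hy
      subst hya
      exact Eventually.of_forall fun k => le_rfl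
    · obtain ⟨x, hx, hx2⟩ := ih hl
      rcases BLT_total (U := U) (fun k => x.2 k ≤ a.2 k) with h | h
      · refine ⟨x, List.mem_cons_of_mem _ hx, ?_⟩
        intro y hy
        rcases List.mem_cons.mp hy with rfl | hy
        · exact h
        · exact hx2 y hy
      · refine ⟨a, by simp, ?_⟩
        intro y hy
        rcases List.mem_cons.mp hy with rfl | hy
        · exact Eventually.of_forall fun k => le_rfl
        · filter_upwards [h, hx2 y hy] with k h1 h2
          omega

theorem BLT_smsum {U : Ultrafilter ℕ} {N : ℕ → ℕ} (hN : Tendsto N (U : Filter ℕ) atTop)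
    (hGSM : GSM_stmt) (g : ((ℕ → ℤ) × (ℕ → ℤ)) → ℕ → ℤ) :
    ∀ l : List ((ℕ → ℤ) × (ℕ → ℤ)), (∀ x ∈ l, Sm U N (g x)) →
      Sm U N (fun k => (l.map fun x => g x k).sum) := by
  intro l
  induction l with
  | nil =>
    intro _
    simpa using (hGSM U N hN).1 0
  | cons a l ih =>
    intro h
    have h1 := ih (fun x hx => h x (List.mem_cons_of_mem _ hx))
    have h2 := ((hGSM U N hN).2.1 _ _ (h a (by simp)) h1).1
    simpa using h2

theorem BLT_term {U : Ultrafilter ℕ} {N : ℕ → ℕ} (hN : Tendsto N (U : Filter ℕ) atTop)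
    (hGSM : GSM_stmt) (c u e : ℕ → ℤ) (hc : Sm U N c) (hu : Fr U N (fun k => e k - u k))
    (he : Fr U N e) :
    ∃ j : ℕ, 0 < j ∧ ∀ C : ℕ, ∀ᶠ k in (U : Filter ℕ),
      (C : ℤ) * |c k * 2 ^ (u k).toNat| * 2 ^ (N k / j) ≤ 2 ^ (e k).toNat := by
  obtain ⟨j1, h1⟩ := hu
  obtain ⟨j2, h2⟩ := he
  refine ⟨2 * (j1 + j2 + 1), by omega, ?_⟩
  intro C
  have hs := ((hGSM U N hN).2.1 _ _ ((hGSM U N hN).1 (C : ℤ)) hc).2.2
  filter_upwards [h1, h2, hs (2 * (j1 + j2 + 1)), BLT_npos hN] with k h1 h2 h3 h4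
  have hj1 : 0 < j1 ∧ 0 < e k - u k := by
    rcases Nat.eq_zero_or_pos j1 with h | h
    · subst h; simp at h1; omega
    · refine ⟨h, ?_⟩
      by_contra hneg
      have : (j1 : ℤ) * (e k - u k) ≤ 0 := mul_nonpos_of_nonneg_of_nonpos (by omega) (by omega)
      omega
  have hj2 : 0 < j2 ∧ 0 < e k := by
    rcases Nat.eq_zero_or_pos j2 with h | h
    · subst h; simp at h2; omega
    · refine ⟨h, ?_⟩
      by_contra hneg
      have : (j2 : ℤ) * (e k) ≤ 0 := mul_nonpos_of_nonneg_of_nonpos (by omega) (by omega)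
      omega
  set J : ℕ := j1 + j2 + 1 with hJ
  have hM : (u k).toNat ≤ (e k).toNat := by omega
  have hA : N k ≤ J * ((e k).toNat - (u k).toNat) := by
    have : (N k : ℤ) ≤ (J : ℤ) * (((e k).toNat - (u k).toNat : ℕ) : ℤ) := by
      have e1 : (((e k).toNat - (u k).toNat : ℕ) : ℤ) = e k - max (u k) 0 := by
        rw [Nat.cast_sub hM]
        rcases le_total (u k) 0 with h | h
        · rw [max_eq_right h]; omega
        · rw [max_eq_left h]; omega
      rw [e1]
      rcases le_total (u k) 0 with h | h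
      · rw [max_eq_right h]
        have : (j2 : ℤ) * e k ≤ (J : ℤ) * (e k - 0) := by
          rw [sub_zero]
          exact mul_le_mul_of_nonneg_right (by rw [hJ]; push_cast; omega) (by omega)
        linarith
      · rw [max_eq_left h]
        have : (j1 : ℤ) * (e k - u k) ≤ (J : ℤ) * (e k - u k) :=
          mul_le_mul_of_nonneg_right (by rw [hJ]; push_cast; omega) (by omega)
        linarith
    exact_mod_cast this
  have hB : |(C : ℤ) * c k| * 2 ^ (N k / (2 * J)) ≤ 2 ^ ((e k).toNat - (u k).toNat) := by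
    have hpos : (0 : ℤ) ≤ 2 ^ ((e k).toNat - (u k).toNat) := by positivity
    refine le_of_pow_le_pow_left₀ (n := 2 * J) (by omega) hpos ?_
    rw [mul_pow, ← pow_mul, ← pow_mul]
    have h5 : N k / (2 * J) * (2 * J) ≤ N k := Nat.div_mul_le_self _ _
    have h6 : (2 : ℤ) ^ (N k / (2 * J) * (2 * J)) ≤ 2 ^ N k := pow_le_pow_right₀ (by norm_num) h5
    calc |(C : ℤ) * c k| ^ (2 * J) * 2 ^ (N k / (2 * J) * (2 * J)) ≤ 2 ^ N k * 2 ^ N k := by
          exact mul_le_mul h3 h6 (by positivity) (by positivity)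
      _ = 2 ^ (N k + N k) := by rw [pow_add]
      _ ≤ 2 ^ (((e k).toNat - (u k).toNat) * (2 * J)) := by
          refine pow_le_pow_right₀ (by norm_num) ?_
          nlinarith [hA]
  have hC : (C : ℤ) * |c k * 2 ^ (u k).toNat| = |(C : ℤ) * c k| * 2 ^ (u k).toNat := by
    rw [abs_mul, abs_mul, abs_of_nonneg (show (0 : ℤ) ≤ 2 ^ (u k).toNat by positivity),
      abs_of_nonneg (show (0 : ℤ) ≤ (C : ℤ) by positivity)]
    ring
  rw [hC]
  calc |(C : ℤ) * c k| * 2 ^ (u k).toNat * 2 ^ (N k / (2 * J))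
      = (|(C : ℤ) * c k| * 2 ^ (N k / (2 * J))) * 2 ^ (u k).toNat := by ring
    _ ≤ 2 ^ ((e k).toNat - (u k).toNat) * 2 ^ (u k).toNat :=
        mul_le_mul_of_nonneg_right hB (by positivity)
    _ = 2 ^ (e k).toNat := by rw [← pow_add, Nat.sub_add_cancel hM]

theorem BLT_rest {U : Ultrafilter ℕ} {N : ℕ → ℕ} (hN : Tendsto N (U : Filter ℕ) atTop)
    (hGSM : GSM_stmt) (e : ℕ → ℤ) (he : Fr U N e) :
    ∀ l : List ((ℕ → ℤ) × (ℕ → ℤ)), (∀ x ∈ l, Sm U N x.1 ∧ Fr U N (fun k => e k - x.2 k)) →
    ∃ j : ℕ, 0 < j ∧ ∀ C : ℕ, ∀ᶠ k in (U : Filter ℕ),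
      (C : ℤ) * |sv l k| * 2 ^ (N k / j) ≤ 2 ^ (e k).toNat := by
  intro l
  induction l with
  | nil =>
    intro _
    refine ⟨1, by omega, ?_⟩
    intro C
    refine Eventually.of_forall fun k => ?_
    simp [sv_nil]
  | cons a l ih =>
    intro h
    obtain ⟨j1, hj1, h1⟩ := ih (fun x hx => h x (List.mem_cons_of_mem _ hx))
    obtain ⟨j2, hj2, h2⟩ := BLT_term hN hGSM a.1 a.2 e (h a (by simp)).1 (h a (by simp)).2 he
    refine ⟨max j1 j2, by omega, ?_⟩
    intro C
    filter_upwards [h1 (2 * C), h2 (2 * C)] with k h3 h4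
    rw [sv_cons]
    have h5 : (2 : ℤ) ^ (N k / max j1 j2) ≤ 2 ^ (N k / j1) :=
      pow_le_pow_right₀ (by norm_num) (Nat.div_le_div_left (le_max_left _ _) hj1)
    have h6 : (2 : ℤ) ^ (N k / max j1 j2) ≤ 2 ^ (N k / j2) :=
      pow_le_pow_right₀ (by norm_num) (Nat.div_le_div_left (le_max_right _ _) hj2)
    have h7 : |a.1 k * 2 ^ (a.2 k).toNat + sv l k| ≤ |a.1 k * 2 ^ (a.2 k).toNat| + |sv l k| :=
      abs_add_le _ _
    push_cast at h3 h4
    have h8 : (2 * (C : ℤ)) * |sv l k| * 2 ^ (N k / max j1 j2) ≤ 2 ^ (e k).toNat :=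
      le_trans (mul_le_mul_of_nonneg_left h5 (by positivity)) h3
    have h9 : (2 * (C : ℤ)) * |a.1 k * 2 ^ (a.2 k).toNat| * 2 ^ (N k / max j1 j2) ≤ 2 ^ (e k).toNat :=
      le_trans (mul_le_mul_of_nonneg_left h6 (by positivity)) h4
    have h10 : (C : ℤ) * |a.1 k * 2 ^ (a.2 k).toNat + sv l k| * 2 ^ (N k / max j1 j2) ≤
        (C : ℤ) * (|a.1 k * 2 ^ (a.2 k).toNat| + |sv l k|) * 2 ^ (N k / max j1 j2) := by
      refine mul_le_mul_of_nonneg_right ?_ (by positivity)
      exact mul_le_mul_of_nonneg_left h7 (by positivity)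
    refine h10.trans ?_
    have h11 : 2 * ((C : ℤ) * (|a.1 k * 2 ^ (a.2 k).toNat| + |sv l k|) * 2 ^ (N k / max j1 j2)) =
      (2 * (C : ℤ)) * |sv l k| * 2 ^ (N k / max j1 j2) +
        (2 * (C : ℤ)) * |a.1 k * 2 ^ (a.2 k).toNat| * 2 ^ (N k / max j1 j2) := by ring
    linarith

theorem BLT_filter (p : ((ℕ → ℤ) × (ℕ → ℤ)) → Prop) [DecidablePred p] (k : ℕ) :
    ∀ l : List ((ℕ → ℤ) × (ℕ → ℤ)),
      sv l k = sv (l.filter fun x => decide (p x)) k + sv (l.filter fun x => decide (¬ p x)) k := by
  intro l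
  induction l with
  | nil => simp [sv_nil]
  | cons a l ih =>
    by_cases h : p a
    · rw [List.filter_cons_of_pos (by simpa using h), List.filter_cons_of_neg (by simpa using h),
        sv_cons, sv_cons, ih]
      ring
    · rw [List.filter_cons_of_neg (by simpa using h), List.filter_cons_of_pos (by simpa using h),
        sv_cons, sv_cons, ih]
      ring

theorem BLT_key (hGSM : GSM_stmt) (hGNG : GNG_stmt) (U : Ultrafilter ℕ) (N : ℕ → ℕ)
    (hN : Tendsto N (U : Filter ℕ) atTop) (n : ℕ) : ∀ (m : ℕ) (l : List ((ℕ → ℤ) × (ℕ → ℤ))),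
    l.length ≤ m → (∀ x ∈ l, Sm U N x.1 ∧ Lw U N n x.2) →
    Sm U N (sv l) ∨ ∃ (a e : ℕ → ℤ) (r : List ((ℕ → ℤ) × (ℕ → ℤ))) (j : ℕ), Sm U N a ∧
      (∀ᶠ k in (U : Filter ℕ), a k ≠ 0) ∧ Lw U N n e ∧ Fr U N e ∧
      (∀ x ∈ r, Sm U N x.1 ∧ Lw U N n x.2) ∧ 0 < j ∧
      (∀ᶠ k in (U : Filter ℕ), sv l k = a k * 2 ^ (e k).toNat + sv r k) ∧
      ∀ᶠ k in (U : Filter ℕ), |sv r k| * 2 ^ (N k / j) ≤ 2 ^ (e k).toNat := by
  classical
  obtain ⟨S1, S2, S3, S4, S5, S6⟩ := hGSM U N hN
  obtain ⟨G1, G2, G3, G4, G5, G6, G7, G8⟩ := hGNG U N hN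
  intro m
  induction m with
  | zero =>
    intro l hl _
    have : l = [] := List.length_eq_zero_iff.mp (by omega)
    subst this
    exact Or.inl (BLT_smcongr (S1 0) (Eventually.of_forall fun k => (sv_nil k).symm))
  | succ m ih =>
    intro l hl hx
    by_cases hnil : l = []
    · subst hnil
      exact Or.inl (BLT_smcongr (S1 0) (Eventually.of_forall fun k => (sv_nil k).symm))
    obtain ⟨x, hxl, hmax⟩ := BLT_max (U := U) l hnil
    by_cases hfr : Fr U N x.2
    · -- the main case
      set near := l.filter (fun y => decide (Ng U N (fun k => x.2 k - y.2 k))) with hnear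
      set rest := l.filter (fun y => decide (¬ Ng U N (fun k => x.2 k - y.2 k))) with hrest
      have hxn : Ng U N (fun k => x.2 k - x.2 k) := by
        have := G1 0
        simpa using this
      have hxnear : x ∈ near := by
        rw [hnear, List.mem_filter]
        exact ⟨hxl, by simpa using hxn⟩
      have hnn : near ≠ [] := List.ne_nil_of_mem hxnear
      obtain ⟨z, hz, hmin⟩ := BLT_min (U := U) near hnn
      have hnmem : ∀ y ∈ near, y ∈ l ∧ Ng U N (fun k => x.2 k - y.2 k) := by
        intro y hy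
        rw [hnear, List.mem_filter] at hy
        exact ⟨hy.1, by simpa using hy.2⟩
      have hrmem : ∀ y ∈ rest, y ∈ l ∧ ¬ Ng U N (fun k => x.2 k - y.2 k) := by
        intro y hy
        rw [hrest, List.mem_filter] at hy
        exact ⟨hy.1, by simpa using hy.2⟩
      have hez : Fr U N z.2 := by
        have := (G5 x.2 (fun k => x.2 k - z.2 k) hfr (hnmem z hz).2).2
        simpa using this
      have hzpos : ∀ᶠ k in (U : Filter ℕ), 0 ≤ z.2 k := by
        filter_upwards [G7 z.2 (fun _ => 0) hez (G1 0)] with k hk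
        simp at hk
        omega
      have hsplit : ∀ k, sv l k = sv near k + sv rest k := fun k =>
        BLT_filter (fun y => Ng U N (fun k => x.2 k - y.2 k)) k l
      -- the coefficient
      let g : ((ℕ → ℤ) × (ℕ → ℤ)) → ℕ → ℤ := fun y k => y.1 k * 2 ^ (y.2 k - z.2 k).toNat
      have hag : Sm U N (fun k => (near.map fun y => g y k).sum) := by
        refine BLT_smsum hN hGSM g near ?_
        intro y hy
        have h1 : Ng U N (fun k => y.2 k - z.2 k) := by
          have := (G2 _ _ (hnmem z hz).2 (hnmem y hy).2).2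
          have e : (fun k => x.2 k - z.2 k - (x.2 k - y.2 k)) = fun k => y.2 k - z.2 k := by
            funext k; ring
          rw [e] at this
          exact this
        exact (S2 _ _ (hx y (hnmem y hy).1).1 (S4 _ h1).2).2.2
      have hnearsv : ∀ᶠ k in (U : Filter ℕ), sv near k = (near.map fun y => g y k).sum * 2 ^ (z.2 k).toNat := by
        have key : ∀ q : List ((ℕ → ℤ) × (ℕ → ℤ)), (∀ y ∈ q, ∀ᶠ k in (U : Filter ℕ), z.2 k ≤ y.2 k) →
            ∀ᶠ k in (U : Filter ℕ), sv q k = (q.map fun y => g y k).sum * 2 ^ (z.2 k).toNat := by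
          intro q
          induction q with
          | nil => intro _; exact Eventually.of_forall fun k => by simp [sv_nil]
          | cons b q ihq =>
            intro hq
            filter_upwards [ihq (fun y hy => hq y (List.mem_cons_of_mem _ hy)), hq b (by simp), hzpos] with k h1 h2 h3
            rw [sv_cons, h1, List.map_cons, List.sum_cons, add_mul]
            have h4 : (b.2 k).toNat = (b.2 k - z.2 k).toNat + (z.2 k).toNat := by omega
            have h5 : g b k * 2 ^ (z.2 k).toNat = b.1 k * 2 ^ (b.2 k).toNat := by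
              show b.1 k * 2 ^ (b.2 k - z.2 k).toNat * 2 ^ (z.2 k).toNat = _
              rw [h4, pow_add]; ring
            rw [h5]
        exact key near hmin
      rcases BLT_total (U := U) (fun k => (near.map fun y => g y k).sum = 0) with h0 | h0
      · -- induction
        have hlen : rest.length ≤ m := by
          have h1 : rest.length < l.length := by
            have h2 : l.length = near.length + rest.length := by
              rw [hnear, hrest]
              have := List.length_eq_length_filter_add (l := l) (fun y => decide (Ng U N (fun k => x.2 k - y.2 k)))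
              simpa using this
            have h3 : 0 < near.length := List.length_pos_of_ne_nil hnn
            omega
          omega
        have hsv : ∀ᶠ k in (U : Filter ℕ), sv rest k = sv l k := by
          filter_upwards [h0, hnearsv] with k h1 h2
          rw [hsplit k, h2, h1]; ring
        rcases ih rest hlen (fun y hy => hx y (hrmem y hy).1) with h | ⟨a, e, r, j, h1, h2, h3, h4, h5, h6, h7, h8⟩
        · exact Or.inl (BLT_smcongr h hsv)
        · refine Or.inr ⟨a, e, r, j, h1, h2, h3, h4, h5, h6, ?_, h8⟩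
          filter_upwards [h7, hsv] with k h9 h10
          rw [← h10, h9]
      · right
        have hrfr : ∀ y ∈ rest, Sm U N y.1 ∧ Fr U N (fun k => z.2 k - y.2 k) := by
          intro y hy
          refine ⟨(hx y (hrmem y hy).1).1, ?_⟩
          have h1 : Fr U N (fun k => x.2 k - y.2 k) := by
            rcases G4 (fun k => x.2 k - y.2 k) with h | h | h
            · exact absurd h (hrmem y hy).2
            · exact h
            · exfalso
              obtain ⟨j, hj⟩ := h
              have hh : ∀ᶠ k in (U : Filter ℕ), False := by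
                filter_upwards [hj, hmax y (hrmem y hy).1, BLT_npos hN] with k h1 h2 h3
                have : (j : ℤ) * (-(x.2 k - y.2 k)) ≤ 0 :=
                  mul_nonpos_of_nonneg_of_nonpos (by omega) (by omega)
                omega
              exact (hh.exists).elim fun _ h => h
          have h2 := (G5 _ _ h1 (hnmem z hz).2).2
          have e : (fun k => x.2 k - y.2 k - (x.2 k - z.2 k)) = fun k => z.2 k - y.2 k := by
            funext k; ring
          rw [e] at h2
          exact h2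
        obtain ⟨j, hj, hjb⟩ := BLT_rest hN hGSM z.2 hez rest hrfr
        refine ⟨fun k => (near.map fun y => g y k).sum, z.2, rest, j, hag, h0, (hx z (hnmem z hz).1).2, hez,
          fun y hy => hx y (hrmem y hy).1, hj, ?_, ?_⟩
        · filter_upwards [hnearsv] with k h1
          rw [hsplit k, h1]
        · filter_upwards [hjb 1] with k h1
          simpa using h1
    · left
      have : Sm U N (fun k => (l.map fun y => (fun (y : (ℕ → ℤ) × (ℕ → ℤ)) k => y.1 k * 2 ^ (y.2 k).toNat) y k).sum) := by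
        refine BLT_smsum hN hGSM (fun y k => y.1 k * 2 ^ (y.2 k).toNat) l ?_
        intro y hy
        rcases G4 y.2 with h | h | h
        · exact (S2 _ _ (hx y hy).1 (S4 _ h).2).2.2
        · exact absurd (G8 _ _ h (hmax y hy)) hfr
        · refine BLT_smcongr (hx y hy).1 ?_
          filter_upwards [G7 _ (fun _ => 0) h (G1 0)] with k hk
          simp at hk
          have : (y.2 k).toNat = 0 := by omega
          rw [this]; ring
      exact this

theorem BLT (hGSM : GSM_stmt) (hGNG : GNG_stmt) (hBLV : BLV_stmt) : BLT_stmt := by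
  intro U N hN n f hf
  obtain ⟨d, l, hd, hd0, hl, hdf⟩ := hf
  obtain ⟨S1, S2, S3, S4, S5, S6⟩ := hGSM U N hN
  rcases BLT_key hGSM hGNG U N hN n l.length l le_rfl hl with h | ⟨a, e, r, j, h1, h2, h3, h4, h5, h6, h7, h8⟩
  · left
    refine S3 (sv l) f 1 h ?_
    filter_upwards [hdf, hd0] with k h1 h2
    have h3 : 1 ≤ |d k| := Int.one_le_abs h2
    have h4 : |sv l k| = |d k| * |f k| := by rw [← h1, abs_mul]
    rw [h4]
    push_cast
    nlinarith [abs_nonneg (f k)]
  · right
    refine ⟨d, a, e, sv r, j, hd, hd0, h1, h2, h3, h4, ?_, h6, ?_, h8⟩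
    · refine ⟨fun _ => 1, r, S1 1, Eventually.of_forall fun k => one_ne_zero, h5, Eventually.of_forall fun k => ?_⟩
      simp
    · filter_upwards [hdf, h7] with k h9 h10
      rw [h9, h10]

end Pool.Agent.GD
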